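import Mathlib
import Pool.Agent.Q304.KU.Star

set_option autoImplicit false

/-!
# The space of continuous self-maps of `ω*` has exactly `2 ^ 𝔠` orbits
-/

open Set Filter Topology Cardinal

namespace Pool.Agent.Results.MP_7279d0_gt.NumberOfOrbits

/-- `ω* = βω \ ω`: the nonprincipal ultrafilters on `ℕ`, as a subspace of the Stone-Cech
compactification `Ultrafilter ℕ` of `ℕ`. -/
abbrev OmegaStar : Type := {U : Ultrafilter ℕ // ∀ n : ℕ, U ≠ pure n}

/-- `C(ω*, ω*)` carries the compact-open topology. Two points are in the same orbit iff some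
homeomorphism of the function space onto itself maps one to the other. -/
def orbitSetoid : Setoid C(OmegaStar, OmegaStar) where
  r f g := ∃ Φ : C(OmegaStar, OmegaStar) ≃ₜ C(OmegaStar, OmegaStar), Φ f = g
  iseqv := ⟨fun f => ⟨Homeomorph.refl _, rfl⟩,
    fun {f g} ⟨Φ, h⟩ => ⟨Φ.symm, by rw [← h]; exact Φ.symm_apply_apply f⟩,
    fun {f g k} ⟨Φ, h⟩ ⟨Ψ, h'⟩ => ⟨Φ.trans Ψ, by rw [Homeomorph.trans_apply, h, h']⟩⟩

lemma np_iff (U : Ultrafilter ℕ) : (∀ n : ℕ, U ≠ pure n) ↔ (U : Filter ℕ) ≤ cofinite := by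
  constructor
  · intro h
    rcases Ultrafilter.le_cofinite_or_eq_pure U with h' | ⟨a, ha⟩
    · exact h'
    · exact absurd ha (h a)
  · intro h n hn
    have h1 : ({n} : Set ℕ)ᶜ ∈ U := h (Set.finite_singleton n).compl_mem_cofinite
    rw [hn] at h1
    exact Ultrafilter.mem_pure.1 h1 rfl

instance : CompactSpace OmegaStar := by
  have : IsClosed {U : Ultrafilter ℕ | ∀ n : ℕ, U ≠ pure n} := by
    rw [← isOpen_compl_iff]
    have : {U : Ultrafilter ℕ | ∀ n : ℕ, U ≠ pure n}ᶜ = ⋃ n : ℕ, {U : Ultrafilter ℕ | {n} ∈ U} := by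
      ext U
      simp only [mem_compl_iff, mem_ofPred_eq, mem_iUnion, not_forall, not_not]
      constructor
      · rintro ⟨n, rfl⟩
        exact ⟨n, Ultrafilter.mem_pure.2 rfl⟩
      · rintro ⟨n, hn⟩
        refine ⟨n, ?_⟩
        apply Ultrafilter.coe_le_coe.1
        intro s hs
        have : n ∈ s := Ultrafilter.mem_pure.1 hs
        exact mem_of_superset hn (by simpa using this)
    rw [this]
    exact isOpen_iUnion fun n => ultrafilter_isOpen_basic {n}
  exact isCompact_iff_compactSpace.1 this.isCompact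

open Pool.Agent.Q304.KU

/-- the point `x_p` -/
noncomputable def pt (p : Ultrafilter ℕ) : OmegaStar := ⟨xp p, (np_iff _).2 (xp_np p)⟩

/-- convergence in `ω*` -/
lemma tendsto_iff (q : Ultrafilter ℕ) (z : ℕ → OmegaStar) (x : OmegaStar) :
    Tendsto z q (𝓝 x) ↔ ∀ s, s ∈ x.1 → {m | s ∈ (z m).1} ∈ q := by
  rw [tendsto_subtype_rng]
  constructor
  · intro h s hs
    exact h ((ultrafilter_isOpen_basic s).mem_nhds hs)
  · intro h O hO
    rw [mem_nhds_iff] at hO
    obtain ⟨O', hO', hO'', hx⟩ := hO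
    obtain ⟨_, ⟨s, rfl⟩, hs1, hs2⟩ := ultrafilterBasis_is_basis.exists_subset_of_mem_open hx hO''
    have h1 : {m | s ∈ (z m).1} ∈ (q : Filter ℕ) := h s hs1
    rw [Filter.mem_map]
    refine mem_of_superset h1 ?_
    intro m hm
    exact hO' (hs2 hm)

/-- The constant maps with values `x_p` and `x_{p'}` in one orbit force a comparison. -/
lemma comparison {p p' : Ultrafilter ℕ} (hp : WeakP p) (hp' : WeakP p')
    (Φ : C(OmegaStar, OmegaStar) ≃ₜ C(OmegaStar, OmegaStar))
    (hΦ : Φ (ContinuousMap.const _ (pt p)) = ContinuousMap.const _ (pt p')) :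
    ∃ g : ℕ → ℕ, p.map g = p' := by
  -- the sequence of constant maps
  let F : ℕ → C(OmegaStar, OmegaStar) := fun n =>
    Φ (ContinuousMap.const _ ⟨xs n, (np_iff _).2 (xs_np n)⟩)
  have hF : Tendsto F p (𝓝 (ContinuousMap.const _ (pt p'))) := by
    rw [← hΦ]
    have h1 : Tendsto (fun n => (⟨xs n, (np_iff _).2 (xs_np n)⟩ : OmegaStar)) p (𝓝 (pt p)) := by
      rw [tendsto_iff]
      intro s hs
      exact mem_xp.1 hs
    have h2 := (ContinuousMap.continuous_const' (X := OmegaStar) (Y := OmegaStar)).tendsto (pt p)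
    exact (Φ.continuous.tendsto _).comp (h2.comp h1)
  have hne : ∀ n, ∃ y : OmegaStar, F n y ≠ pt p' := by
    intro n
    by_contra hcon
    push Not at hcon
    have h1 : F n = ContinuousMap.const _ (pt p') := by
      ext1 y
      exact hcon y
    rw [← hΦ] at h1
    have h2 := Φ.injective h1
    have h3 := congrArg (fun f : C(OmegaStar, OmegaStar) => (f (pt p)).1) h2
    exact xs_ne_xp hp.1 n h3
  choose y hy using hne
  have hlim : Tendsto (fun n => F n (y n)) p (𝓝 (pt p')) := by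
    intro O hO
    rw [mem_nhds_iff] at hO
    obtain ⟨O', hO', hO'', hx⟩ := hO
    have h1 : {f : C(OmegaStar, OmegaStar) | MapsTo f Set.univ O'} ∈
        𝓝 (ContinuousMap.const OmegaStar (pt p')) := by
      apply (ContinuousMap.isOpen_setOfPred_mapsTo isCompact_univ hO'').mem_nhds
      intro _ _
      exact hx
    have h2 : F ⁻¹' {f : C(OmegaStar, OmegaStar) | MapsTo f Set.univ O'} ∈ (p : Filter ℕ) := hF h1
    rw [Filter.mem_map]
    refine mem_of_superset h2 ?_
    intro n hn
    exact hO' (hn (mem_univ _))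
  rw [tendsto_iff] at hlim
  refine key hp' (fun n => (F n (y n)).1) (fun n => (np_iff _).1 (F n (y n)).2) ?_ hlim
  intro n h
  exact hy n (Subtype.ext h)

lemma mk_ultrafilter_le : #(Ultrafilter ℕ) ≤ 2 ^ 𝔠 := by
  have h2 : #(Ultrafilter ℕ) ≤ #(Set (Set ℕ)) := by
    apply Cardinal.mk_le_of_injective (f := fun V : Ultrafilter ℕ => {A : Set ℕ | A ∈ V})
    intro V W h
    apply Ultrafilter.coe_injective
    ext A
    exact Set.ext_iff.mp h A
  rwa [Cardinal.mk_set, Cardinal.mk_set_nat] at h2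

/-- `ω*` has a dense set indexed by the sets of naturals. -/
lemma exists_dense : ∃ D : Set ℕ → OmegaStar, DenseRange D := by
  classical
  have key : ∀ B : Set ℕ, ∃ x : OmegaStar, B.Infinite → B ∈ x.1 := by
    intro B
    by_cases hB : B.Infinite
    · have : (cofinite ⊓ 𝓟 B).NeBot := Filter.cofinite_inf_principal_neBot_iff.2 hB
      obtain ⟨U, hU⟩ := Ultrafilter.exists_le (cofinite ⊓ 𝓟 B)
      exact ⟨⟨U, (np_iff _).2 (hU.trans inf_le_left)⟩,
        fun _ => hU (mem_inf_of_right (mem_principal_self _))⟩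
    · exact ⟨⟨xs 0, (np_iff _).2 (xs_np 0)⟩, fun h => absurd h hB⟩
  choose D hD using key
  refine ⟨D, ?_⟩
  rw [DenseRange, dense_iff_inter_open]
  rintro O hO ⟨x, hx⟩
  obtain ⟨O', hO', rfl⟩ := isOpen_induced_iff.1 hO
  obtain ⟨_, ⟨s, rfl⟩, hs1, hs2⟩ := ultrafilterBasis_is_basis.exists_subset_of_mem_open
    (show x.1 ∈ O' from hx) hO'
  have hinf : s.Infinite := by
    intro hfin
    have h1 := (np_iff _).1 x.2 hfin.compl_mem_cofinite
    exact Ultrafilter.compl_mem_iff_notMem.1 h1 hs1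
  exact ⟨D s, hs2 (hD s hinf), mem_range_self s⟩

lemma mk_maps_le : #C(OmegaStar, OmegaStar) ≤ 2 ^ 𝔠 := by
  obtain ⟨D, hD⟩ := exists_dense
  have h1 : #C(OmegaStar, OmegaStar) ≤ #(Set ℕ → OmegaStar) := by
    apply Cardinal.mk_le_of_injective (f := fun f : C(OmegaStar, OmegaStar) => fun B => f (D B))
    intro f g h
    apply ContinuousMap.coe_injective
    apply DenseRange.equalizer hD f.continuous g.continuous
    funext B
    exact congrFun h B
  refine h1.trans ?_
  have h2 : #(Set ℕ → OmegaStar) = #OmegaStar ^ 𝔠 := by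
    rw [← Cardinal.mk_set_nat]
    simp
  have h3 : #OmegaStar ≤ 2 ^ 𝔠 := (Cardinal.mk_subtype_le _).trans mk_ultrafilter_le
  rw [h2]
  calc #OmegaStar ^ 𝔠 ≤ (2 ^ 𝔠) ^ 𝔠 := Cardinal.power_le_power_right h3
    _ = 2 ^ 𝔠 := by rw [← Cardinal.power_mul, Cardinal.continuum_mul_self]

/-- **Answer to Q1.** The number of orbits of `C_k(ω*, ω*)` under the group of its
autohomeomorphisms is exactly `2 ^ 𝔠`. -/
theorem result : #(Quotient orbitSetoid) = 2 ^ 𝔠 := by
  classical
  apply le_antisymm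
  · exact (Cardinal.mk_quotient_le).trans mk_maps_le
  · obtain ⟨u, hu, hW⟩ := exists_many
    let c : Set (Set ℕ) → Quotient orbitSetoid := fun H =>
      Quotient.mk _ (ContinuousMap.const _ (pt (u H)))
    -- representatives
    have hrep : ∀ H, ∃ g : ℕ → ℕ,
        (u (Function.invFun c (c H))).map g = u H := by
      intro H
      have h1 : c (Function.invFun c (c H)) = c H := Function.invFun_eq ⟨H, rfl⟩
      obtain ⟨Φ, hΦ⟩ := Quotient.exact h1
      exact comparison (hW _) (hW _) Φ hΦ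
    choose g hg using hrep
    have hinj : Function.Injective (fun H => (c H, g H)) := by
      intro H H' h
      simp only [Prod.mk.injEq] at h
      apply hu
      rw [← hg H, ← hg H', h.1, h.2]
    have h2 := Cardinal.mk_le_of_injective hinj
    rw [Cardinal.mk_prod, Cardinal.lift_id, Cardinal.lift_id, Cardinal.mk_set,
      Cardinal.mk_set_nat] at h2
    have h3 : #(ℕ → ℕ) = 𝔠 := by simp
    rw [h3] at h2
    by_contra hcon
    rw [not_le] at hcon
    have h4 : ℵ₀ ≤ (2 : Cardinal) ^ 𝔠 := Cardinal.aleph0_le_continuum.trans (Cardinal.cantor _).le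
    exact absurd h2 (not_le.2 (Cardinal.mul_lt_of_lt h4 hcon (Cardinal.cantor _)))

end Pool.Agent.Results.MP_7279d0_gt.NumberOfOrbits
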